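import Pool.Agent.helper91.SI.Spec

set_option autoImplicit false

namespace Pool.Agent.helper91.SI

open Finset
open Pool.Agent.helper20.IG (IsIndepDom IsISet iGraph)

/-- The set `x+1, x+4, ..., x-1`. -/
def CNV_S (n : ℕ) (x : Fin n) : Finset (Fin n) :=
  univ.filter fun y => ((y.val + n - (x.val + 1)) % n) % 3 = 0

/-- The rotation by `t`. -/
def CNV_r (n : ℕ) (hn : 0 < n) (t : ℕ) : Fin n → Fin n := fun y => ⟨(y.val + t) % n, Nat.mod_lt _ hn⟩

theorem CNV_r_bij (n : ℕ) (hn : 0 < n) (t : ℕ) (ht : t ≤ n) : Function.Bijective (CNV_r n hn t) := by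
  have h : Function.LeftInverse (CNV_r n hn (n - t)) (CNV_r n hn t) := by
    intro y
    apply Fin.ext
    change ((y.val + t) % n + (n - t)) % n = y.val
    rw [Nat.mod_add_mod, show y.val + t + (n - t) = y.val + n by omega, Nat.add_mod_right]
    exact Nat.mod_eq_of_lt y.2
  exact Finite.injective_iff_bijective.1 h.injective

/-- Adjacency. -/
theorem CNV_adj (hCYA : CYA_stmt) (n : ℕ) (hn : 3 ≤ n) (u v : Fin n) :
    (SimpleGraph.cycleGraph n).Adj u v ↔
      v = CNV_r n (by omega) 1 u ∨ v = CNV_r n (by omega) (n - 1) u := by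
  rw [hCYA n hn]
  constructor
  · rintro (h | h)
    · left
      exact Fin.ext h.symm
    · right
      apply Fin.ext
      change v.val = (u.val + (n - 1)) % n
      rw [← h]
      rw [Nat.mod_add_mod, show v.val + 1 + (n - 1) = v.val + n by omega, Nat.add_mod_right]
      exact (Nat.mod_eq_of_lt v.2).symm
  · rintro (h | h)
    · left
      rw [h]
      rfl
    · right
      rw [h]
      change ((u.val + (n - 1)) % n + 1) % n = u.val
      rw [Nat.mod_add_mod, show u.val + (n - 1) + 1 = u.val + n by omega, Nat.add_mod_right]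
      exact Nat.mod_eq_of_lt u.2

/-- The classification. -/
theorem CNV_class0 (hCYA : CYA_stmt) (n : ℕ) (hn : 5 ≤ n) (hn3 : n % 3 = 2) (S : Finset (Fin n))
    (hS : IsIndepDom (SimpleGraph.cycleGraph n) S) (hc : 3 * S.card = n + 1) :
    ∃ x : Fin n, S = CNV_S n x := by
  classical
  have hn0 : 0 < n := by omega
  set f : Fin n → ℕ := fun y => if y ∈ S then 1 else 0 with hf
  set σ := CNV_r n hn0 1 with hσ
  set τ := CNV_r n hn0 (n - 1) with hτ
  have hfs : ∑ y, f y = S.card := by
    rw [hf]
    simp
  have hσs : ∑ y, f (σ y) = S.card := by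
    rw [← hfs]
    exact Function.Bijective.sum_comp (CNV_r_bij n hn0 1 (by omega)) f
  have hτs : ∑ y, f (τ y) = S.card := by
    rw [← hfs]
    exact Function.Bijective.sum_comp (CNV_r_bij n hn0 (n - 1) (by omega)) f
  have hf1 : ∀ y, f y ≤ 1 := by
    intro y
    rw [hf]
    dsimp only
    split_ifs <;> omega
  -- independence
  have hind : ∀ y, f y + f (σ y) ≤ 1 := by
    intro y
    rw [hf]
    dsimp only
    split_ifs with h1 h2
    · exact absurd ((CNV_adj hCYA n (by omega) y (σ y)).2 (Or.inl rfl)) (hS.1 y h1 (σ y) h2)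
    · omega
    · omega
    · omega
  have hind2 : ∀ y, f y + f (τ y) ≤ 1 := by
    intro y
    rw [hf]
    dsimp only
    split_ifs with h1 h2
    · exact absurd ((CNV_adj hCYA n (by omega) y (τ y)).2 (Or.inr rfl)) (hS.1 y h1 (τ y) h2)
    · omega
    · omega
    · omega
  -- domination
  have hdom : ∀ y, 1 ≤ f (τ y) + f y + f (σ y) := by
    intro y
    by_cases h1 : y ∈ S
    · have : f y = 1 := by rw [hf]; exact if_pos h1
      omega
    · obtain ⟨u, hu, huy⟩ := hS.2 y h1
      rcases (CNV_adj hCYA n (by omega) y u).1 huy.symm with h2 | h2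
      · have : f (σ y) = 1 := by
          rw [hf]
          change (if σ y ∈ S then 1 else 0) = 1
          rw [hσ, ← h2]
          exact if_pos hu
        omega
      · have : f (τ y) = 1 := by
          rw [hf]
          change (if τ y ∈ S then 1 else 0) = 1
          rw [hτ, ← h2]
          exact if_pos hu
        omega
  have hsum : ∑ y, (f (τ y) + f y + f (σ y) - 1) = 1 := by
    have h1 : ∑ y, (f (τ y) + f y + f (σ y)) = n + 1 := by
      rw [Finset.sum_add_distrib, Finset.sum_add_distrib, hfs, hσs, hτs]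
      omega
    have h2 : ∑ y : Fin n, (f (τ y) + f y + f (σ y) - 1) + ∑ _y : Fin n, 1 = n + 1 := by
      rw [← Finset.sum_add_distrib, ← h1]
      exact Finset.sum_congr rfl fun y _ => Nat.sub_add_cancel (hdom y)
    have h3 : ∑ _y : Fin n, 1 = n := by simp
    omega
  obtain ⟨x, hx⟩ : ∃ x, f (τ x) + f x + f (σ x) - 1 ≠ 0 := by
    by_contra hcon
    push Not at hcon
    rw [Finset.sum_eq_zero (fun y _ => hcon y)] at hsum
    omega
  have hx' : f (τ x) + f x + f (σ x) - 1 + ∑ y ∈ univ.erase x, (f (τ y) + f y + f (σ y) - 1) = 1 := by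
    exact (Finset.add_sum_erase univ (fun y => f (τ y) + f y + f (σ y) - 1) (mem_univ x)).trans hsum
  have hx2 : f (τ x) + f x + f (σ x) = 2 := by
    have := hdom x
    omega
  have hoth : ∀ y, y ≠ x → f (τ y) + f y + f (σ y) = 1 := by
    intro y hy
    have h0 : ∑ y ∈ univ.erase x, (f (τ y) + f y + f (σ y) - 1) = 0 := by omega
    have h1 := Finset.sum_eq_zero_iff.1 h0 y (Finset.mem_erase.2 ⟨hy, mem_univ y⟩)
    have := hdom y
    omega
  have hx0 : f x = 0 := by
    have h1 := hind x
    have h2 := hind2 x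
    have h3 := hf1 x
    omega
  have hx1 : f (σ x) = 1 := by
    have h1 := hf1 (σ x)
    have h2 := hf1 (τ x)
    omega
  -- going around
  set g : ℕ → ℕ := fun t => f (CNV_r n hn0 t x) with hg
  have hg0 : g 0 = 0 := by
    rw [hg]
    change f (CNV_r n hn0 0 x) = 0
    have : CNV_r n hn0 0 x = x := by
      apply Fin.ext
      change (x.val + 0) % n = x.val
      rw [add_zero]
      exact Nat.mod_eq_of_lt x.2
    rw [this, hx0]
  have hg1 : g 1 = 1 := hx1
  have hstep : ∀ t, t + 1 < n → g t + g (t + 1) + g (t + 2) = 1 := by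
    intro t ht
    have hne : CNV_r n hn0 (t + 1) x ≠ x := by
      intro h
      have h1 : (x.val + (t + 1)) % n = x.val := congrArg Fin.val h
      have hx := x.2
      rcases Nat.lt_or_ge (x.val + (t + 1)) n with h2 | h2
      · rw [Nat.mod_eq_of_lt h2] at h1
        omega
      · rw [Nat.mod_eq_sub_mod h2, Nat.mod_eq_of_lt (by omega)] at h1
        omega
    have h1 := hoth _ hne
    have e1 : τ (CNV_r n hn0 (t + 1) x) = CNV_r n hn0 t x := by
      apply Fin.ext
      change ((x.val + (t + 1)) % n + (n - 1)) % n = (x.val + t) % n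
      rw [Nat.mod_add_mod, show x.val + (t + 1) + (n - 1) = x.val + t + n by omega, Nat.add_mod_right]
    have e2 : σ (CNV_r n hn0 (t + 1) x) = CNV_r n hn0 (t + 2) x := by
      apply Fin.ext
      change ((x.val + (t + 1)) % n + 1) % n = (x.val + (t + 2)) % n
      rw [Nat.mod_add_mod]
      rfl
    rw [e1, e2] at h1
    exact h1
  have hpat : ∀ t, t + 2 ≤ n → g t = (if t % 3 = 1 then 1 else 0) ∧ g (t + 1) = (if (t + 1) % 3 = 1 then 1 else 0) ∧
      g (t + 2) = (if (t + 2) % 3 = 1 then 1 else 0) := by
    intro t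
    induction t with
    | zero =>
      intro _
      have := hstep 0 (by omega)
      refine ⟨by rw [hg0]; rfl, by rw [hg1]; rfl, ?_⟩
      change g 0 + g 1 + g 2 = 1 at this
      change g 2 = 0
      rw [hg0, hg1] at this
      omega
    | succ t ih =>
      intro ht
      obtain ⟨i1, i2, i3⟩ := ih (by omega)
      refine ⟨i2, i3, ?_⟩
      have := hstep (t + 1) (by omega)
      rw [i2] at this
      rw [show t + 1 + 1 = t + 2 by ring, i3] at this
      rcases (by omega : t % 3 = 0 ∨ t % 3 = 1 ∨ t % 3 = 2) with h | h | h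
      · rw [if_pos (by omega), if_neg (by omega)] at this
        rw [if_neg (by omega)]
        omega
      · rw [if_neg (by omega), if_neg (by omega)] at this
        rw [if_pos (by omega)]
        omega
      · rw [if_neg (by omega), if_pos (by omega)] at this
        rw [if_neg (by omega)]
        omega
  have hpat2 : ∀ t, t < n → g t = (if t % 3 = 1 then 1 else 0) := by
    intro t ht
    rcases Nat.lt_or_ge (t + 1) n with h | h
    · exact (hpat t (by omega)).1
    · have h1 := (hpat (t - 1) (by omega)).2.1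
      rw [show t - 1 + 1 = t by omega] at h1
      exact h1
  refine ⟨x, ?_⟩
  ext y
  rw [CNV_S, Finset.mem_filter]
  have hxlt := x.2
  have hylt := y.2
  -- `t`
  have hfy : y ∈ S ↔ f y = 1 := by
    rw [hf]
    dsimp only
    split_ifs with h
    · simp [h]
    · simp [h]
  rw [hfy]
  rcases Nat.lt_or_ge y.val (x.val + 1) with h1 | h1
  · -- `y ≤ x`
    rcases Nat.eq_or_lt_of_le (Nat.lt_succ_iff.1 h1) with h2 | h2
    · have : y = x := Fin.ext h2
      rw [this, hx0]
      constructor
      · intro h
        omega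
      · rintro ⟨_, h⟩
        rw [show x.val + n - (x.val + 1) = n - 1 by omega, Nat.mod_eq_of_lt (by omega : n - 1 < n)] at h
        omega
    · have e : y = CNV_r n hn0 (y.val + n - x.val) x := by
        apply Fin.ext
        change y.val = (x.val + (y.val + n - x.val)) % n
        rw [show x.val + (y.val + n - x.val) = y.val + n by omega, Nat.add_mod_right]
        exact (Nat.mod_eq_of_lt y.2).symm
      have h3 := hpat2 (y.val + n - x.val) (by omega)
      have h4 : f y = g (y.val + n - x.val) := congrArg f e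
      rw [h4, h3, Nat.mod_eq_of_lt (by omega : y.val + n - (x.val + 1) < n)]
      constructor
      · intro h
        split_ifs at h with h5
        exact ⟨mem_univ _, by omega⟩
      · rintro ⟨_, h⟩
        exact if_pos (by omega)
  · have e : y = CNV_r n hn0 (y.val - x.val) x := by
      apply Fin.ext
      change y.val = (x.val + (y.val - x.val)) % n
      rw [show x.val + (y.val - x.val) = y.val by omega]
      exact (Nat.mod_eq_of_lt y.2).symm
    have h3 := hpat2 (y.val - x.val) (by omega)
    have h4 : f y = g (y.val - x.val) := congrArg f e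
    rw [h4, h3, show y.val + n - (x.val + 1) = y.val - (x.val + 1) + n by omega, Nat.add_mod_right,
      Nat.mod_eq_of_lt (by omega : y.val - (x.val + 1) < n)]
    constructor
    · intro h
      split_ifs at h with h5
      exact ⟨mem_univ _, by omega⟩
    · rintro ⟨_, h⟩
      exact if_pos (by omega)

/-- The classification. -/
theorem CNV_class (hCYA : CYA_stmt) (n : ℕ) (hn : 5 ≤ n) (h3 : n % 3 = 2) (S : Finset (Fin n))
    (hS : IsIndepDom (SimpleGraph.cycleGraph n) S) (hc : 3 * S.card = n + 1) :
    ∃ x : Fin n, ∀ y : Fin n, y ∈ S ↔ ((y.val + n - (x.val + 1)) % n) % 3 = 0 := by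
  obtain ⟨x, hx⟩ := CNV_class0 hCYA n hn h3 S hS hc
  refine ⟨x, fun y => ?_⟩
  rw [hx, CNV_S, Finset.mem_filter]
  simp

end Pool.Agent.helper91.SI
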